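import Pool.Agent.Helper68.ES.St3
import Pool.Agent.Helper80.RL.M_LMX

/-!
# Project ES (MP_cb927e_an): module LOW, from points to ridges of the fattened set
-/

set_option autoImplicit false

open MeasureTheory Set Filter Topology
open scoped ENNReal RealInnerProductSpace

namespace Pool.Agent.Helper90.ES

open Pool.Agent.Helper68.ES Pool.Agent.Helper68.EP Pool.Agent.Helper20.RG
open Pool.Agent.Helper20.RL (RQ Rich BM Fml Hit)
open Pool.Agent.Helper68.LM (Pl BB Bd Av HL ft fm DQ)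

theorem hLOW (hLGR : Pool.Agent.Helper20.RL.StLGR) (hEQ : Pool.Agent.Helper68.EP.StEQ)
    (hDRB : StDRB) (hFAT : StFAT) : Pool.Agent.Helper68.ES.StLOW := by
  have hLMX := Pool.Agent.Helper80.RL.hLMX hLGR
  intro s a B b₁ P F R θ' κ₀ dD e' hs hBa hba hP hPF hRm hRb hθ' hdD hdκ hdens hcell he' hDn h4
  set K := Ft F R with hK
  set θ₁ := θ' / (10 * κ₀) with hθ₁
  have hRa : ∀ z ∈ P, R z ≤ a := fun z hz => by
    have := hRb z (hPF hz)
    omega
  set Pm : Set Pl := {z | z ∈ P ∧ ∃ w : ℤ, B ≤ w ∧ w ≤ b₁ ∧ R z ≤ w ∧ Rich K s a w θ₁ z} with hPm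
  -- step 1
  have h1 : volume {z | z ∈ P ∧ Rich P s a B θ' z} ≤ 4 * volume Pm := by
    have key := hLMX s (fun _ => a) (fun _ => B) {(0 : ℤ)} (fun _ => {z | Rich P s a B θ' z})
      {z | z ∈ P ∧ Rich P s a B θ' z} Pm 4 monotone_const monotone_const bddAbove_singleton ?_ ?_ ?_
    · exact key.trans (mul_le_mul_right (measure_mono inter_subset_left) _)
    · intro _ _ y hy z hz
      change ENNReal.ofReal (θ' * (2 : ℝ) ^ (a + B)) ≤ volume (P ∩ RQ s a B z)
      rw [hLGR.2.1 s a B y z hz]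
      exact hy
    · rintro z ⟨_, hz⟩
      rw [mem_iUnion₂]
      exact ⟨0, rfl, hz⟩
    · intro _ _ y hy
      obtain ⟨B', hB1, hB2, hB3, hB4⟩ := hFAT s a B P F R θ' κ₀ dD y hs hBa hP hPF hRm hRa hθ' hdD
        hdκ hdens hcell hy
      have hlt := (hDRB K e' b₁ he' hDn).2.2.1 s a B' θ₁ y hs hba h4 hB4
      refine (measure_mono ?_).trans (hB3.trans (mul_le_mul_right (measure_mono ?_) _))
      · rintro z ⟨⟨hz, _⟩, hz2⟩
        exact ⟨hz.1, hz2⟩
      · rintro z ⟨⟨hz1, hz2⟩, hz3⟩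
        refine ⟨⟨hz1, B', hB1, hlt.le, hz2, ?_⟩, hz3⟩
        have hz4 : z ∈ RQ s a B' y := hLGR.2.2.1 s a B a B' y le_rfl hB1 hz3
        change ENNReal.ofReal (θ₁ * (2 : ℝ) ^ (a + B')) ≤ volume (K ∩ RQ s a B' z)
        rw [hLGR.2.1 s a B' y z hz4]
        exact hB4
  -- step 2
  have h2 : volume Pm ≤ ENNReal.ofReal dD * volume (K ∩ Ri K s a b₁ θ₁ ((2 : ℝ) ^ a)) := by
    have key := hLMX 0 id id {k : ℤ | k ≤ b₁} (fun k => {x | ∃ z ∈ Pm, R z = k ∧ x ∈ DQ k z})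
      Pm (K ∩ Ri K s a b₁ θ₁ ((2 : ℝ) ^ a)) (ENNReal.ofReal dD) monotone_id monotone_id
      ⟨b₁, fun b hb => hb⟩ ?_ ?_ ?_
    · exact key.trans (mul_le_mul_right (measure_mono inter_subset_left) _)
    · rintro k _ y ⟨z, hz, hzR, hy⟩ x hx
      refine ⟨z, hz, hzR, ?_⟩
      have hx' : x ∈ DQ k y := by
        rw [(hEQ.1 k y).2.2.2]
        exact hx
      rw [(hEQ.2.2.1 k k z y le_rfl hy).2] at hx'
      exact hx'
    · intro z hz
      rw [mem_iUnion₂]
      have h5 := hRb z (hPF hz.1)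
      refine ⟨R z, ?_, z, hz, rfl, (hEQ.1 (R z) z).2.1⟩
      change R z ≤ b₁
      omega
    · rintro k _ y ⟨z, hz, hzR, hy⟩
      have hcellk : RQ 0 (id k) (id k) y = DQ k z := by
        have h6 : RQ 0 (id k) (id k) y = DQ k y := (hEQ.1 k y).2.2.2.symm
        rw [h6, (hEQ.2.2.1 k k z y le_rfl hy).2]
      have hsub : DQ k z ⊆ K ∩ Ri K s a b₁ θ₁ ((2 : ℝ) ^ a) := by
        intro x hx
        obtain ⟨hzP, w, hBw, hwb, hRw, hRich⟩ := hz
        refine ⟨⟨z, hPF hzP, ?_⟩, z, w, hwb, hRich, ?_⟩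
        · rw [hzR]
          have e0 : ⌊x 0 / (2 : ℝ) ^ k⌋ = ⌊z 0 / (2 : ℝ) ^ k⌋ := hx 0
          have e1 : ⌊x 1 / (2 : ℝ) ^ k⌋ = ⌊z 1 / (2 : ℝ) ^ k⌋ := hx 1
          refine ⟨?_, ?_⟩
          · rw [e0]; simp
          · rw [e1]; simp
        · have hx' : x ∈ RQ 0 k k z := by
            rw [← (hEQ.1 k z).2.2.2]
            exact hx
          obtain ⟨g1, g2, g3⟩ := hLGR.2.2.2.1 0 k k z x (by simp) hx'
          have g4 : |x 1 - z 1| < (2 : ℝ) ^ k := by
            have e : pr 0 x - pr 0 z = x 1 - z 1 := by simp [pr]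
            rw [e] at g2
            exact g2
          have hk1 : k ≤ w := by rw [← hzR]; exact hRw
          have hk2 : k ≤ a := by
            have := hRa z hzP
            omega
          have p1 : (2 : ℝ) ^ k ≤ (2 : ℝ) ^ w := zpow_le_zpow_right₀ (by norm_num) hk1
          have p2 : (2 : ℝ) ^ k ≤ (2 : ℝ) ^ a := zpow_le_zpow_right₀ (by norm_num) hk2
          have p3 : (0 : ℝ) < (2 : ℝ) ^ w := by positivity
          refine ⟨lt_of_lt_of_le g1 p2, ?_⟩
          have e2 : pr s x - pr s z = (x 1 - z 1) - s * (x 0 - z 0) := by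
            simp only [pr]; ring
          rw [e2]
          have g5 : |s * (x 0 - z 0)| ≤ |x 0 - z 0| := by
            rw [abs_mul]
            exact mul_le_of_le_one_left (abs_nonneg _) hs
          have g6 := abs_sub (x 1 - z 1) (s * (x 0 - z 0))
          linarith
      rw [hcellk, inter_eq_right.2 hsub]
      have hvol : volume (DQ k z) = ENNReal.ofReal ((4 : ℝ) ^ k) := by
        rw [(hEQ.1 k z).2.2.2, (hLGR.1 0 k k z).2.1]
        congr 1
        rw [← two_mul, zpow_mul]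
        norm_num
      rw [hvol, ← ENNReal.ofReal_mul hdD.le]
      refine (measure_mono ?_).trans (hdens z hz.1 k (le_of_eq hzR))
      rintro x ⟨⟨hx, _⟩, hx2⟩
      exact ⟨hx.1, hx2⟩
  calc volume {z | z ∈ P ∧ Rich P s a B θ' z} ≤ 4 * volume Pm := h1
    _ ≤ 4 * (ENNReal.ofReal dD * volume (K ∩ Ri K s a b₁ θ₁ ((2 : ℝ) ^ a))) := by gcongr
    _ = ENNReal.ofReal (4 * dD) * volume (K ∩ Ri K s a b₁ θ₁ ((2 : ℝ) ^ a)) := by
        rw [← mul_assoc, ENNReal.ofReal_mul (by norm_num)]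
        congr 2
        norm_num

end Pool.Agent.Helper90.ES
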