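import Pool.Agent.Helper68.ES.St2
import Pool.Agent.Helper57.EP.M_EAT

/-!
# Project ES (MP_cb927e_an): module SUR, the surplus
-/

set_option autoImplicit false

open MeasureTheory Set Filter Topology
open scoped ENNReal RealInnerProductSpace

namespace Pool.Agent.Helper90.ES

open Pool.Agent.Helper68.ES Pool.Agent.Helper68.EP Pool.Agent.Helper20.RG
open Pool.Agent.Helper20.RL (RQ Rich BM Fml Hit)
open Pool.Agent.Helper68.LM (Pl BB Bd Av HL ft fm DQ)

/-- a union of dyadic squares -/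
theorem SUR_cells (hLGR : Pool.Agent.Helper20.RL.StLGR) (hEQ : Pool.Agent.Helper68.EP.StEQ) (b : ℤ)
    (T : Set Pl) (hT : ∀ y ∈ T, DQ b y ⊆ T) (G : Pl → ℝ≥0∞) (c : ℝ≥0∞)
    (h : ∀ y, ∫⁻ z in DQ b y, G z ≤ c * volume (DQ b y)) :
    ∫⁻ z in T, G z ≤ c * volume T := by
  classical
  have hDQm : ∀ y : Pl, MeasurableSet (DQ b y) := fun y => by
    rw [(hEQ.1 b y).2.2.2]
    exact (hLGR.1 0 b b y).1
  let f : Pl → ℤ × ℤ := fun z => (⌊z 0 / (2 : ℝ) ^ b⌋, ⌊z 1 / (2 : ℝ) ^ b⌋)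
  let s : ℤ × ℤ → Set Pl := fun p => {z | z ∈ T ∧ f z = p}
  have hs : ∀ p, s p = ∅ ∨ ∃ y ∈ T, s p = DQ b y := by
    intro p
    rcases (s p).eq_empty_or_nonempty with h0 | ⟨y, hy⟩
    · exact Or.inl h0
    · refine Or.inr ⟨y, hy.1, ?_⟩
      ext z
      constructor
      · rintro ⟨_, hz⟩
        have h2 : f z = f y := hz.trans hy.2.symm
        have h3 := congrArg Prod.fst h2
        have h4 := congrArg Prod.snd h2
        intro i
        fin_cases i
        · exact h3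
        · exact h4
      · intro hz
        refine ⟨hT y hy.1 hz, ?_⟩
        rw [← hy.2]
        exact Prod.ext (hz 0) (hz 1)
  have hU : T = ⋃ p, s p := by
    ext z
    rw [mem_iUnion]
    constructor
    · intro hz
      exact ⟨f z, hz, rfl⟩
    · rintro ⟨p, hz⟩
      exact hz.1
  have hm : ∀ p, MeasurableSet (s p) := by
    intro p
    rcases hs p with h0 | ⟨y, _, h0⟩
    · rw [h0]; exact MeasurableSet.empty
    · rw [h0]; exact hDQm y
  have hd : Pairwise (Function.onFun Disjoint s) := by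
    intro p p' hpp
    rw [Function.onFun, Set.disjoint_left]
    intro z hz hz'
    exact hpp (hz.2.symm.trans hz'.2)
  rw [hU, lintegral_iUnion hm hd, measure_iUnion hd hm, ← ENNReal.tsum_mul_left]
  refine ENNReal.tsum_le_tsum fun p => ?_
  rcases hs p with h0 | ⟨y, _, h0⟩
  · rw [h0]; simp
  · rw [h0]; exact h y

theorem hSUR (hPT : Pool.Agent.Helper20.RG.StPT) (hLGR : Pool.Agent.Helper20.RL.StLGR)
    (hEQ : Pool.Agent.Helper68.EP.StEQ) (hEFB : Pool.Agent.Helper68.EP.StEFB) :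
    Pool.Agent.Helper68.ES.StSUR := by
  classical
  have _ := hEFB
  obtain ⟨C0, hC0, hHL⟩ := Pool.Agent.Helper27.LM.hHLW 4 (by norm_num)
  refine ⟨max C0 1, le_max_right _ _, ?_⟩
  intro p CH E H u q J sl fl D θ m D' ω hChg hH hD' hCH
  have hHm := hH.1
  -- the large set
  set Ω : Set Pl := {z | ∃ b' : ℤ, ENNReal.ofReal (D' * (4 : ℝ) ^ b') < volume (H ∩ DQ3 b' z)}
    with hΩ
  have hvΩ : volume Ω ≤ ENNReal.ofReal (C0 / D') * volume H := by
    have h1 := hHL (H.indicator (1 : Pl → ℝ)) (Pool.Agent.Helper57.EP.bb_ind hH) D' hD'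
    have h2 : ∫⁻ x, ‖H.indicator (1 : Pl → ℝ) x‖ₑ = volume H := by
      simp only [Pool.Agent.Helper57.EP.enorm_ind]
      exact lintegral_indicator_one hHm
    rw [h2] at h1
    refine le_trans (measure_mono ?_) h1
    rintro z ⟨b', hb'⟩
    exact Pool.Agent.Helper57.EP.hl_large hPT hEQ hHm hD' hb'
  have hfin : volume H ≠ ⊤ := hH.2.measure_lt_top.ne
  obtain ⟨b₁, hb₁⟩ : ∃ b₁ : ℕ, (volume H).toReal ≤ D' * (4 : ℝ) ^ b₁ := by
    obtain ⟨n, hn⟩ := pow_unbounded_of_one_lt ((volume H).toReal / D') (by norm_num : (1 : ℝ) < 4)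
    refine ⟨n, ?_⟩
    rw [div_lt_iff₀ hD'] at hn
    linarith
  have hsc : ∀ (b' : ℤ) (z : Pl), ENNReal.ofReal (D' * (4 : ℝ) ^ b') < volume (H ∩ DQ3 b' z) →
      b' ≤ (b₁ : ℤ) := by
    intro b' z h
    by_contra hcon
    push Not at hcon
    have h1 : volume (H ∩ DQ3 b' z) ≤ ENNReal.ofReal (D' * (4 : ℝ) ^ b') := by
      refine (measure_mono inter_subset_left).trans ?_
      rw [← ENNReal.ofReal_toReal hfin]
      refine ENNReal.ofReal_le_ofReal (hb₁.trans ?_)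
      have h2 : (4 : ℝ) ^ b₁ ≤ (4 : ℝ) ^ b' := by
        rw [← zpow_natCast]
        exact zpow_le_zpow_right₀ (by norm_num) hcon.le
      exact mul_le_mul_of_nonneg_left h2 hD'.le
    exact absurd h (not_lt.2 h1)
  -- the layers
  set Ωb : ℤ → Set Pl := fun b => {z | ENNReal.ofReal (D' * (4 : ℝ) ^ b) < volume (H ∩ DQ3 b z) ∧
    ∀ b' : ℤ, b < b' → volume (H ∩ DQ3 b' z) ≤ ENNReal.ofReal (D' * (4 : ℝ) ^ b')} with hΩb
  have hinv : ∀ b, ∀ y ∈ Ωb b, DQ b y ⊆ Ωb b := by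
    rintro b y ⟨h1, h2⟩ z hz
    refine ⟨?_, fun b' hb' => ?_⟩
    · rw [(hEQ.2.2.1 b b y z le_rfl hz).1]
      exact h1
    · rw [(hEQ.2.2.1 b b' y z hb'.le hz).1]
      exact h2 b' hb'
  have hmΩ : ∀ b, MeasurableSet (Ωb b) := fun b =>
    hLGR.2.2.2.2 0 b b (Ωb b) fun y hy => by
      rw [← (hEQ.1 b y).2.2.2]
      exact hinv b y hy
  have hdΩ : Pairwise (Function.onFun Disjoint Ωb) := by
    have h0 : ∀ b b' : ℤ, b < b' → Disjoint (Ωb b) (Ωb b') := by
      intro b b' hbb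
      rw [Set.disjoint_left]
      intro z hz hz'
      exact absurd hz'.1 (not_lt.2 (hz.2 b' hbb))
    intro b b' hbb
    rcases lt_or_gt_of_ne hbb with h | h
    · exact h0 b b' h
    · exact (h0 b' b h).symm
  have hcov : ∀ k : ℤ, H \ Fb H D' k ⊆ ⋃ b : ℤ, (if k ≤ b then Ωb b else ∅) := by
    rintro k z ⟨hzH, hzF⟩
    have h1 : ∃ b' : ℤ, k ≤ b' ∧ ENNReal.ofReal (D' * (4 : ℝ) ^ b') < volume (H ∩ DQ3 b' z) := by
      by_contra hcon
      push Not at hcon
      exact hzF ⟨hzH, hcon⟩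
    obtain ⟨b, hb1, hb2⟩ := Int.exists_greatest_of_bdd
      (P := fun b' => k ≤ b' ∧ ENNReal.ofReal (D' * (4 : ℝ) ^ b') < volume (H ∩ DQ3 b' z))
      ⟨(b₁ : ℤ), fun b' hb' => hsc b' z hb'.2⟩ h1
    rw [mem_iUnion]
    refine ⟨b, ?_⟩
    rw [if_pos hb1.1]
    refine ⟨hb1.2, fun b' hb' => ?_⟩
    by_contra hcon
    push Not at hcon
    exact absurd (hb2 b' ⟨hb1.1.trans hb'.le, hcon⟩) (not_le.2 hb')
  -- the densities
  set w : ℤ → Pl → ℝ≥0∞ := fun k z => ∑ j ∈ J, ω k j z with hw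
  have hwm : ∀ k, Measurable (w k) := fun k => Finset.measurable_sum _ fun j _ => hChg.meas k j
  have hwI : ∀ (k : ℤ) (S : Set Pl), ∑ j ∈ J, ∫⁻ z in S, ω k j z = ∫⁻ z in S, w k z := by
    intro k S
    rw [hw]
    exact (lintegral_finsetSum _ fun j _ => hChg.meas k j).symm
  set G : ℤ → Pl → ℝ≥0∞ := fun b z => ∑' k : ℤ, (if k ≤ b then w k z else 0) with hG
  have hGI : ∀ (b : ℤ) (S : Set Pl),
      ∑' k : ℤ, (if k ≤ b then ∫⁻ z in S, w k z else 0) = ∫⁻ z in S, G b z := by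
    intro b S
    rw [hG]
    simp only
    rw [lintegral_tsum]
    · refine tsum_congr fun k => ?_
      split_ifs
      · rfl
      · simp
    · intro k
      split_ifs
      · exact (hwm k).aemeasurable
      · exact aemeasurable_const
  have hlayer : ∀ b, ∫⁻ z in Ωb b, G b z ≤ ENNReal.ofReal CH * volume (Ωb b) := by
    intro b
    refine SUR_cells hLGR hEQ b (Ωb b) (hinv b) (G b) _ fun y => ?_
    have h1 := hChg.hl b y
    simp only [hwI] at h1
    rw [hGI] at h1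
    refine h1.trans (le_of_eq ?_)
    rw [(hEQ.1 b y).2.2.2, (hLGR.1 0 b b y).2.1, ← ENNReal.ofReal_mul hCH]
    congr 2
    rw [← two_mul, zpow_mul]
    norm_num
  have hsum : ∑' k : ℤ, ∑ j ∈ J, ∫⁻ z in H \ Fb H D' k, ω k j z ≤
      ENNReal.ofReal CH * volume Ω := by
    calc ∑' k : ℤ, ∑ j ∈ J, ∫⁻ z in H \ Fb H D' k, ω k j z
        = ∑' k : ℤ, ∫⁻ z in H \ Fb H D' k, w k z := by
          refine tsum_congr fun k => hwI k _
      _ ≤ ∑' k : ℤ, ∑' b : ℤ, (if k ≤ b then ∫⁻ z in Ωb b, w k z else 0) := by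
          refine ENNReal.tsum_le_tsum fun k => ?_
          refine (lintegral_mono_set (hcov k)).trans ?_
          refine (lintegral_iUnion_le _ _).trans (le_of_eq ?_)
          refine tsum_congr fun b => ?_
          split_ifs
          · rfl
          · simp
      _ = ∑' b : ℤ, ∑' k : ℤ, (if k ≤ b then ∫⁻ z in Ωb b, w k z else 0) := ENNReal.tsum_comm
      _ = ∑' b : ℤ, ∫⁻ z in Ωb b, G b z := by
          refine tsum_congr fun b => hGI b _
      _ ≤ ∑' b : ℤ, ENNReal.ofReal CH * volume (Ωb b) := ENNReal.tsum_le_tsum hlayer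
      _ = ENNReal.ofReal CH * volume (⋃ b, Ωb b) := by
          rw [ENNReal.tsum_mul_left, measure_iUnion hdΩ hmΩ]
      _ ≤ ENNReal.ofReal CH * volume Ω := by
          gcongr
          refine iUnion_subset fun b z hz => ⟨b, hz.1⟩
  calc ch p u J ω (fun k _ => H \ Fb H D' k)
      = ENNReal.ofReal ((2 : ℝ) ^ (-(p * u))) *
          ∑' k : ℤ, ∑ j ∈ J, ∫⁻ z in H \ Fb H D' k, ω k j z := rfl
    _ ≤ ENNReal.ofReal ((2 : ℝ) ^ (-(p * u))) * (ENNReal.ofReal CH *
          (ENNReal.ofReal (C0 / D') * volume H)) := by gcongr; exact hsum.trans (by gcongr)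
    _ = ENNReal.ofReal ((2 : ℝ) ^ (-(p * u)) * (C0 * CH / D')) * volume H := by
        rw [← mul_assoc, ← mul_assoc, ← ENNReal.ofReal_mul (by positivity),
          ← ENNReal.ofReal_mul (by positivity)]
        congr 2
        ring
    _ ≤ ENNReal.ofReal ((2 : ℝ) ^ (-(p * u)) * (max C0 1 * CH / D')) * volume H := by
        gcongr
        exact le_max_left _ _

end Pool.Agent.Helper90.ES
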